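import Mathlib
import Pool.Agent.H731R2.Jordan

/-!
# Jordan-type decomposition of measurable Hermitian characteristic functions

Outline: averaged Riemann sums show that a measurable `f ∈ R_A` equals almost everywhere the Fourier
transform of a finite measure on the line, whose Jordan decomposition handles the continuous part.
The remaining part `k ∈ R_A` is zero almost everywhere; represent it by a finite measure with density
`u` on the Bohr compactification and project `u` on the closed subspace of `L²` of the vectors all of
whose coefficients vanish almost everywhere. Weak limits, along ultrafilters converging to `0` and
avoiding null sets, of multiplication by the characters show that the complementary part contributes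
`0` at every point of `(-A, A)`, so the positive and negative parts of the projected density give
non-negative functionals with almost everywhere vanishing characteristic functions.
-/

set_option autoImplicit false

open MeasureTheory Pool.Agent.H731R2

/-- Let `0 < A ≤ ∞`. Every Hermitian Lebesgue measurable `f ∈ R_A` is a difference `f = f₊ - f₋` of two
Lebesgue measurable characteristic functions of non-negative functionals. -/
theorem Pool.Agent.Results.MP_b1ee0a_an.Jordan.result (A : EReal) (_hA : 0 < A)
    (f : Dom A → ℂ) (hf : MemR f) (hm : AEMeasurable f (leb A)) (hH : Hermitian f) :
    ∃ f₁ f₂ : Dom A → ℂ, (MemP f₁ ∧ AEMeasurable f₁ (leb A)) ∧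
      (MemP f₂ ∧ AEMeasurable f₂ (leb A)) ∧ ∀ y, f y = f₁ y - f₂ y :=
  jordan hf hm hH
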